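import Pool.Agent.N408.IB.Stm

/-! # IB/VOL3: the volume of a star body of revolution in `ℝ³` -/

open Real Set MeasureTheory IB408
open scoped ENNReal

namespace N861.IB.VOL3

noncomputable section

/-- the integrand in `S_VOLA` -/
def F (R : ℝ → ℝ) (p : ℝ × ℝ) : ℝ≥0∞ :=
  if √(p.1 ^ 2 + p.2 ^ 2) ≤ R (p.1 / √(p.1 ^ 2 + p.2 ^ 2)) then 1 else 0

/-- the integrand in the `(a, ρ)` plane -/
def G (R : ℝ → ℝ) (p : ℝ × ℝ) : ℝ≥0∞ :=
  if 0 < p.2 then ENNReal.ofReal (2 * π * p.2) * F R p else 0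

/-- the integrand in polar coordinates -/
def H (R : ℝ → ℝ) (p : ℝ × ℝ) : ℝ≥0∞ :=
  if 0 < sin p.2 then
    (if p.1 ≤ R (cos p.2) then ENNReal.ofReal (2 * π * sin p.2 * p.1 ^ 2) else 0) else 0

lemma measF {R : ℝ → ℝ} (hR : Continuous R) : Measurable (F R) := by
  unfold F
  refine Measurable.ite ?_ measurable_const measurable_const
  refine measurableSet_le (by fun_prop) ?_
  refine hR.measurable.comp ?_
  fun_prop

lemma measH {R : ℝ → ℝ} (hR : Continuous R) : Measurable (H R) := by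
  unfold H
  refine Measurable.ite ?_ ?_ measurable_const
  · exact measurableSet_lt (by fun_prop) (by fun_prop)
  refine Measurable.ite ?_ ?_ measurable_const
  · refine measurableSet_le (by fun_prop) ?_
    exact hR.measurable.comp (by fun_prop)
  · refine ENNReal.measurable_ofReal.comp (by fun_prop)

lemma polar_eq (R : ℝ → ℝ) {p : ℝ × ℝ} (hp : p ∈ polarCoord.target) :
    ENNReal.ofReal p.1 • G R (polarCoord.symm p) = H R p := by
  obtain ⟨hr, -⟩ := hp
  have hr : 0 < p.1 := hr
  have e1 : √((p.1 * cos p.2) ^ 2 + (p.1 * sin p.2) ^ 2) = p.1 := by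
    have : (p.1 * cos p.2) ^ 2 + (p.1 * sin p.2) ^ 2 = p.1 ^ 2 := by
      have := sin_sq_add_cos_sq p.2
      nlinarith
    rw [this, sqrt_sq hr.le]
  have e2 : p.1 * cos p.2 / p.1 = cos p.2 := by field_simp
  unfold G H F
  simp only [polarCoord_symm_apply, e1, e2, smul_eq_mul]
  by_cases hs : 0 < sin p.2
  · have : 0 < p.1 * sin p.2 := mul_pos hr hs
    rw [if_pos this, if_pos hs]
    by_cases hc : p.1 ≤ R (cos p.2)
    · rw [if_pos hc, if_pos hc, mul_one, ← ENNReal.ofReal_mul hr.le]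
      congr 1; ring
    · rw [if_neg hc, if_neg hc, mul_zero, mul_zero]
  · have : ¬ 0 < p.1 * sin p.2 := by
      push Not at hs ⊢
      exact mul_nonpos_of_nonneg_of_nonpos hr.le hs
    rw [if_neg this, if_neg hs, mul_zero]

lemma inner_eq {R : ℝ → ℝ} (h0 : ∀ s, 0 ≤ R s) (φ : ℝ) :
    ∫⁻ r in Ioi (0 : ℝ), H R (r, φ) =
      if 0 < sin φ then ENNReal.ofReal (2 * π / 3 * (sin φ * R (cos φ) ^ 3)) else 0 := by
  unfold H
  by_cases hs : 0 < sin φ
  · simp only [if_pos hs]
    have h1 : ∫⁻ r in Ioi (0 : ℝ), (if r ≤ R (cos φ) then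
        ENNReal.ofReal (2 * π * sin φ * r ^ 2) else 0) =
        ∫⁻ r in Ioc (0 : ℝ) (R (cos φ)), ENNReal.ofReal (2 * π * sin φ * r ^ 2) := by
      rw [← lintegral_indicator measurableSet_Ioi, ← lintegral_indicator measurableSet_Ioc]
      refine lintegral_congr fun r => ?_
      simp only [indicator, mem_Ioi, mem_Ioc]
      by_cases ha : 0 < r <;> by_cases hb : r ≤ R (cos φ) <;> simp [ha, hb]
    rw [h1, ← ofReal_integral_eq_lintegral_ofReal, ← intervalIntegral.integral_of_le (h0 _)]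
    · congr 1
      rw [intervalIntegral.integral_const_mul, integral_pow]
      norm_num
      ring
    · have : Continuous fun r : ℝ => 2 * π * sin φ * r ^ 2 := by fun_prop
      exact (this.integrableOn_Icc).mono_set Ioc_subset_Icc_self
    · refine Filter.Eventually.of_forall fun r => ?_
      have := pi_pos
      show (0 : ℝ) ≤ _
      positivity
  · simp only [if_neg hs, lintegral_zero]

lemma outer_eq {R : ℝ → ℝ} (hR : Continuous R) (h0 : ∀ s, 0 ≤ R s) :
    ∫⁻ φ in Ioo (-π) π, (if 0 < sin φ then ENNReal.ofReal (2 * π / 3 * (sin φ * R (cos φ) ^ 3))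
      else 0) = ENNReal.ofReal (2 * π / 3 * ∫ s in (-1 : ℝ)..1, R s ^ 3) := by
  have hpi := pi_pos
  have h1 : ∫⁻ φ in Ioo (-π) π, (if 0 < sin φ then
      ENNReal.ofReal (2 * π / 3 * (sin φ * R (cos φ) ^ 3)) else 0) =
      ∫⁻ φ in Ioc 0 π, ENNReal.ofReal (2 * π / 3 * (sin φ * R (cos φ) ^ 3)) := by
    rw [← lintegral_indicator measurableSet_Ioo, ← lintegral_indicator measurableSet_Ioc]
    refine lintegral_congr fun φ => ?_
    simp only [indicator, mem_Ioo, mem_Ioc]
    by_cases ha : 0 < φ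
    · rcases lt_trichotomy φ π with hb | hb | hb
      · have hs := sin_pos_of_pos_of_lt_pi ha hb
        rw [if_pos ⟨by linarith, hb⟩, if_pos hs, if_pos ⟨ha, hb.le⟩]
      · subst hb
        simp [hpi]
      · rw [if_neg (fun h => by linarith [h.2]), if_neg (fun h => by linarith [h.2])]
    · rw [if_neg (fun h : 0 < φ ∧ φ ≤ π => ha h.1)]
      by_cases hb : -π < φ ∧ φ < π
      · rw [if_pos hb, if_neg]
        have := sin_nonpos_of_nonpos_of_neg_pi_le (not_lt.1 ha) hb.1.le
        exact not_lt.2 this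
      · rw [if_neg hb]
  have hc : Continuous fun φ : ℝ => 2 * π / 3 * (sin φ * R (cos φ) ^ 3) := by fun_prop
  rw [h1, ← ofReal_integral_eq_lintegral_ofReal, ← intervalIntegral.integral_of_le hpi.le]
  · congr 1
    rw [intervalIntegral.integral_const_mul]
    congr 1
    have h2 := intervalIntegral.integral_comp_mul_deriv (a := 0) (b := π) (f := cos)
      (f' := fun x => -sin x) (g := fun s => R s ^ 3) (fun x _ => hasDerivAt_cos x)
      (by fun_prop) (by fun_prop)
    rw [cos_zero, cos_pi] at h2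
    have h3 : (∫ φ in (0 : ℝ)..π, sin φ * R (cos φ) ^ 3) =
        - ∫ x in (0 : ℝ)..π, ((fun s => R s ^ 3) ∘ cos) x * -sin x := by
      rw [← intervalIntegral.integral_neg]
      refine intervalIntegral.integral_congr fun x _ => ?_
      simp only [Function.comp]
      ring
    rw [h3, h2, intervalIntegral.integral_symm, neg_neg]
  · exact (hc.integrableOn_Icc).mono_set Ioc_subset_Icc_self
  · refine (ae_restrict_iff' measurableSet_Ioc).2 (Filter.Eventually.of_forall fun φ hφ => ?_)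
    have hs := sin_nonneg_of_nonneg_of_le_pi hφ.1.le hφ.2
    have := h0 (cos φ)
    show (0 : ℝ) ≤ _
    positivity

theorem t (h1 : S_VOLA) : IB408.S_VOL3 := by
  intro R hR h0
  have hF := measF hR
  have e0 : volume {y : E3 | ‖y‖ ≤ R (y 0 / ‖y‖)} =
      ∫⁻ y : E3, F R (y 0, √(y 1 ^ 2 + y 2 ^ 2)) := by
    have hn : ∀ y : E3, √((y 0) ^ 2 + (√(y 1 ^ 2 + y 2 ^ 2)) ^ 2) = ‖y‖ := by
      intro y
      rw [sq_sqrt (by positivity), EuclideanSpace.norm_eq, Fin.sum_univ_three]
      simp only [norm_eq_abs, sq_abs]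
      congr 1; ring
    have hm : MeasurableSet {y : E3 | ‖y‖ ≤ R (y 0 / ‖y‖)} := by
      refine measurableSet_le (by fun_prop) (hR.measurable.comp ?_)
      fun_prop
    rw [← lintegral_indicator_one hm]
    refine lintegral_congr fun y => ?_
    simp only [F, hn, indicator, mem_ofPred_eq, Pi.one_apply]
  rw [e0, h1 (F R) hF]
  have e1 : ∫⁻ p in (univ : Set ℝ) ×ˢ (Ioi (0 : ℝ)), ENNReal.ofReal (2 * π * p.2) * F R p =
      ∫⁻ p, G R p := by
    rw [← lintegral_indicator (MeasurableSet.univ.prod measurableSet_Ioi)]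
    refine lintegral_congr fun p => ?_
    simp only [G, indicator, mem_prod, mem_univ, mem_Ioi, true_and]
  rw [e1, ← lintegral_comp_polarCoord_symm]
  have e2 : ∫⁻ p in polarCoord.target, ENNReal.ofReal p.1 • G R (polarCoord.symm p) =
      ∫⁻ p in polarCoord.target, H R p :=
    setLIntegral_congr_fun polarCoord.open_target.measurableSet fun p hp => polar_eq R hp
  rw [e2]
  have e3 : ∫⁻ p in polarCoord.target, H R p =
      ∫⁻ φ in Ioo (-π) π, ∫⁻ r in Ioi (0 : ℝ), H R (r, φ) := by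
    have : (polarCoord.target : Set (ℝ × ℝ)) = Ioi (0 : ℝ) ×ˢ Ioo (-π) π := rfl
    rw [this]
    exact setLIntegral_prod_symm (H R) (measH hR).aemeasurable
  rw [e3]
  simp only [inner_eq h0]
  exact outer_eq hR h0

end

end N861.IB.VOL3
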